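import Pool.Agent.W819.NC.Stm

/-!
# Decoupling by arithmetic and geometric means
-/

namespace Pool.Agent.W671.NC
open H974 Finset Pool.Agent.W819.EN Pool.Agent.W819.NC

theorem ok2 : Ok P2 := fun _ => ⟨by norm_num, by norm_num⟩

/-- arithmetic and geometric means for powers of one number -/
theorem amgm {s : ℝ} (hs : 1 ≤ s) {m : ℕ} (hm : 1 ≤ m) (p : ℕ → ℕ) :
    s ^ (∑ j ∈ range m, p j) ≤ ∑ j ∈ range m, (m : ℝ)⁻¹ * s ^ (m * p j) := by
  have hm0 : m ≠ 0 := by omega
  have hmR : (m : ℝ) ≠ 0 := by exact_mod_cast hm0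
  have hs0 : 0 ≤ s := by linarith
  have h := Real.geom_mean_le_arith_mean_weighted (range m) (fun _ => (m : ℝ)⁻¹)
    (fun j => s ^ (m * p j)) (fun _ _ => by positivity)
    (by rw [Finset.sum_const, card_range, nsmul_eq_mul, mul_inv_cancel₀ hmR])
    (fun _ _ => by positivity)
  have e : ∏ j ∈ range m, (s ^ (m * p j)) ^ ((m : ℝ)⁻¹) = s ^ (∑ j ∈ range m, p j) := by
    rw [← Finset.prod_pow_eq_pow_sum]
    refine Finset.prod_congr rfl (fun j _ => ?_)
    rw [mul_comm m (p j), pow_mul, Real.pow_rpow_inv_natCast (by positivity) hm0]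
  rwa [e] at h

/-- decoupling -/
theorem t_DEC : Dec := by
  intro s B m S U f P hs hm hB hU hmom hfU
  have hm0 : m ≠ 0 := by omega
  have hmR : (m : ℝ) ≠ 0 := by exact_mod_cast hm0
  have hs0 : 0 < s := by linarith
  -- the moment bound
  have hmain : Ex P2 S (fun F => U F * s ^ (∑ j ∈ range m, P j F)) ≤ B * Ex P2 S U := by
    have h1 : Ex P2 S (fun F => U F * s ^ (∑ j ∈ range m, P j F)) ≤
        Ex P2 S (fun F => ∑ j ∈ range m, (m : ℝ)⁻¹ * (U F * s ^ (m * P j F))) := by
      refine Ex_mono ok2 (fun F _ => ?_)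
      have := mul_le_mul_of_nonneg_left (amgm hs hm (fun j => P j F)) (hU F).le
      refine this.trans (le_of_eq ?_)
      rw [Finset.mul_sum]
      exact Finset.sum_congr rfl (fun j _ => by ring)
    refine h1.trans ?_
    rw [Ex_sum P2 S (range m) (fun j F => (m : ℝ)⁻¹ * (U F * s ^ (m * P j F)))]
    calc ∑ j ∈ range m, Ex P2 S (fun F => (m : ℝ)⁻¹ * (U F * s ^ (m * P j F)))
        ≤ ∑ j ∈ range m, (m : ℝ)⁻¹ * (B * Ex P2 S U) := by
          refine Finset.sum_le_sum (fun j hj => ?_)
          rw [Ex_mul_left]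
          exact mul_le_mul_of_nonneg_left (hmom j (mem_range.mp hj)) (by positivity)
      _ = B * Ex P2 S U := by
          rw [Finset.sum_const, card_range, nsmul_eq_mul, ← mul_assoc, mul_inv_cancel₀ hmR,
            one_mul]
  constructor
  · -- lower bound of `f`
    have h2 : Ex P2 S U ≤ Ex P2 S (fun F => (B / 2) * f F +
        (1 / (2 * B)) * (U F * s ^ (∑ j ∈ range m, P j F))) := by
      refine Ex_mono ok2 (fun F hF => ?_)
      set x : ℝ := s ^ (∑ j ∈ range m, P j F) with hx
      have hx0 : 0 < x := by positivity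
      have hf : U F ≤ f F * x := (hfU F hF).1
      have hf' : U F / x ≤ f F := by
        rw [div_le_iff₀ hx0]; exact hf
      have h3 : U F ≤ (B / 2) * (U F / x) + (1 / (2 * B)) * (U F * x) := by
        have hu := hU F
        have h4 : (1 : ℝ) ≤ (B / 2) * (1 / x) + (1 / (2 * B)) * x := by
          have h5 : (B / 2) * (1 / x) + (1 / (2 * B)) * x - 1 = (B - x) ^ 2 / (2 * B * x) := by
            field_simp
            ring
          have h6 : 0 ≤ (B - x) ^ 2 / (2 * B * x) := by positivity
          linarith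
        calc U F = U F * 1 := by ring
          _ ≤ U F * ((B / 2) * (1 / x) + (1 / (2 * B)) * x) :=
            mul_le_mul_of_nonneg_left h4 hu.le
          _ = (B / 2) * (U F / x) + (1 / (2 * B)) * (U F * x) := by ring
      have h7 : (B / 2) * (U F / x) ≤ (B / 2) * f F :=
        mul_le_mul_of_nonneg_left hf' (by positivity)
      linarith
    rw [Ex_add, Ex_mul_left, Ex_mul_left] at h2
    have h8 : (1 / (2 * B)) * Ex P2 S (fun F => U F * s ^ (∑ j ∈ range m, P j F)) ≤
        (1 / (2 * B)) * (B * Ex P2 S U) :=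
      mul_le_mul_of_nonneg_left hmain (by positivity)
    have h9 : (1 / (2 * B)) * (B * Ex P2 S U) = Ex P2 S U / 2 := by
      field_simp
    have h10 : (B / 2) * Ex P2 S f = (B * Ex P2 S f) / 2 := by ring
    linarith
  · exact (Ex_mono ok2 (fun F hF => (hfU F hF).2)).trans hmain

end Pool.Agent.W671.NC
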